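import Pool.Agent.Helper5.HI.HIT
import Pool.Agent.Helper64.HI.RS
import Pool.Agent.Helper60.HI.Sz
import Pool.Agent.Helper85.HI.Count

/-!
# HI: Hilbert's irreducibility theorem
-/

set_option autoImplicit false

namespace Pool.Agent.Helper26.HI

open MvPolynomial

noncomputable section

/-- **HIT**: Hilbert's irreducibility theorem -/
theorem hit {r : ℕ} (P : Polynomial (MvPolynomial (Fin r) ℤ)) (hPm : P.Monic) (hirr : Irreducible P)
    (D : MvPolynomial (Fin r) ℤ) (hD : D ≠ 0) : ∃ t : Fin r → ℤ, eval t D ≠ 0 ∧ Irreducible (P.map (eval t)) :=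
  hit_of (fun hr P hPm hirr hn => hilbert_count hr P hPm hirr hn) (fun P hPm hirr => resolvents P hPm hirr)
    (fun R hR δ hδ t₀ p h hp => sz_affine R hR δ hδ t₀ p h hp) P hPm hirr D hD

end

end Pool.Agent.Helper26.HI
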