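import Mathlib
import Pool.Agent.Helper26.HI.Defs

/-!
# HI: Hilbert's irreducibility theorem, from the counting theorem and the resolvents
-/

set_option autoImplicit false

namespace Pool.Agent.Helper26.HI

open MvPolynomial

noncomputable section

/-- `r = 0` -/
theorem hit_zero5 (P : Polynomial (MvPolynomial (Fin 0) ℤ)) (hirr : Irreducible P) (D : MvPolynomial (Fin 0) ℤ) (hD : D ≠ 0)
    (t : Fin 0 → ℤ) : eval t D ≠ 0 ∧ Irreducible (P.map (eval t)) := by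
  obtain ⟨e, he⟩ : ∃ e : MvPolynomial (Fin 0) ℤ ≃+* ℤ, (e : MvPolynomial (Fin 0) ℤ →+* ℤ) = eval t := by
    refine ⟨(isEmptyAlgEquiv ℤ (Fin 0)).toRingEquiv, ?_⟩
    refine MvPolynomial.ringHom_ext (fun n => ?_) fun i => i.elim0
    rw [eval_C]
    exact (isEmptyAlgEquiv ℤ (Fin 0)).commutes n
  constructor
  · intro h
    rw [← he] at h
    exact hD (e.map_eq_zero_iff.1 h)
  · have h1 : P.map (eval t) = Polynomial.mapEquiv e P := by
      rw [Polynomial.mapEquiv_apply, he]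
    rw [h1]
    exact (MulEquiv.irreducible_iff (Polynomial.mapEquiv e)).2 hirr

/-- **HIT**, from the counting theorem, the resolvents and the zeros in a box -/
theorem hit_of {r : ℕ}
    (hc : ∀ (_ : 1 ≤ r) (P : Polynomial (MvPolynomial (Fin r) ℤ)) (_ : P.Monic) (_ : Irreducible P) (_ : 2 ≤ P.natDegree),
      ∃ C : ℕ, ∀ h : ℕ, 1 ≤ h → ∃ p₀ : ℕ, ∀ p : ℕ, p.Prime → p₀ ≤ p → h * (bad P (p * h)).card ≤ C * (p * h) ^ r)
    (rs : ∀ (P : Polynomial (MvPolynomial (Fin r) ℤ)) (_ : P.Monic) (_ : Irreducible P),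
      ∃ S : Finset (Polynomial (MvPolynomial (Fin r) ℤ)), (∀ Q ∈ S, Q.Monic ∧ Irreducible Q ∧ 2 ≤ Q.natDegree) ∧
        ∀ t : Fin r → ℤ, (∀ Q ∈ S, ∀ x : ℤ, V Q t x ≠ 0) → Irreducible (P.map (eval t)))
    (sz : ∀ (R : MvPolynomial (Fin r) ℤ) (_ : R ≠ 0) (δ : ℕ) (_ : R.totalDegree ≤ δ) (t₀ : Fin r → ℤ) (p h : ℕ) (_ : 0 < p),
      h * ((box r h).filter fun u : Fin r → ℕ => eval (fun k => t₀ k + p * (u k : ℤ)) R = 0).card ≤ δ * h ^ r)
    (P : Polynomial (MvPolynomial (Fin r) ℤ)) (hPm : P.Monic) (hirr : Irreducible P)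
    (D : MvPolynomial (Fin r) ℤ) (hD : D ≠ 0) : ∃ t : Fin r → ℤ, eval t D ≠ 0 ∧ Irreducible (P.map (eval t)) := by
  classical
  rcases Nat.eq_zero_or_pos r with h0 | hr
  · subst h0
    exact ⟨fun i => i.elim0, hit_zero5 P hirr D hD _⟩
  obtain ⟨S, hS, hSt⟩ := rs P hPm hirr
  have hc' : ∀ Q : S, ∃ C : ℕ, ∀ h : ℕ, 1 ≤ h → ∃ p₀ : ℕ, ∀ p : ℕ, p.Prime → p₀ ≤ p →
      h * (bad Q.1 (p * h)).card ≤ C * (p * h) ^ r := fun Q =>
    hc hr Q.1 (hS Q.1 Q.2).1 (hS Q.1 Q.2).2.1 (hS Q.1 Q.2).2.2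
  choose C hC using hc'
  obtain ⟨h, hh⟩ : ∃ h : ℕ, h = (∑ Q : S, C Q) + D.totalDegree + 1 := ⟨_, rfl⟩
  have hh1 : 1 ≤ h := by omega
  choose p₀ hp₀ using fun Q : S => hC Q h hh1
  obtain ⟨p, hp, hpp⟩ := Nat.exists_infinite_primes (Finset.univ.sup p₀)
  have hp0 : 0 < p := hpp.pos
  have hb : ∀ Q : S, h * (bad Q.1 (p * h)).card ≤ C Q * (p * h) ^ r := fun Q =>
    hp₀ Q p hpp ((Finset.le_sup (Finset.mem_univ Q)).trans hp)
  obtain ⟨Z, hZ⟩ : ∃ Z : Finset (Fin r → ℕ), Z = (box r (p * h)).filter fun u : Fin r → ℕ => eval (fun k => (u k : ℤ)) D = 0 :=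
    ⟨_, rfl⟩
  have hZc : h * Z.card ≤ D.totalDegree * (p * h) ^ r := by
    have h1 := sz D hD D.totalDegree le_rfl (fun _ => 0) 1 (p * h) one_pos
    have h2 : ((box r (p * h)).filter fun u : Fin r → ℕ => eval (fun k => (fun _ : Fin r => (0 : ℤ)) k + ((1 : ℕ) : ℤ) * (u k : ℤ)) D = 0) = Z := by
      rw [hZ]
      refine Finset.filter_congr fun u _ => ?_
      simp
    rw [h2] at h1
    refine le_trans (Nat.mul_le_mul_right _ ?_) h1
    exact Nat.le_mul_of_pos_left h hp0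
  -- a point outside the bad sets
  have hex : ∃ t ∈ box r (p * h), t ∉ Z ∧ ∀ Q : S, t ∉ bad Q.1 (p * h) := by
    by_contra hcon
    push Not at hcon
    have hsub : box r (p * h) ⊆ Z ∪ Finset.univ.biUnion fun Q : S => bad Q.1 (p * h) := by
      intro t ht
      by_cases htZ : t ∈ Z
      · exact Finset.mem_union_left _ htZ
      · obtain ⟨Q, hQ⟩ := hcon t ht htZ
        exact Finset.mem_union_right _ (Finset.mem_biUnion.2 ⟨Q, Finset.mem_univ _, hQ⟩)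
    have h1 : (p * h) ^ r ≤ Z.card + ∑ Q : S, (bad Q.1 (p * h)).card := by
      rw [← card_box r (p * h)]
      refine (Finset.card_le_card hsub).trans ((Finset.card_union_le _ _).trans ?_)
      exact Nat.add_le_add_left Finset.card_biUnion_le _
    have h2 : h * (p * h) ^ r ≤ (D.totalDegree + ∑ Q : S, C Q) * (p * h) ^ r := by
      calc h * (p * h) ^ r ≤ h * (Z.card + ∑ Q : S, (bad Q.1 (p * h)).card) := Nat.mul_le_mul_left _ h1
        _ = h * Z.card + ∑ Q : S, h * (bad Q.1 (p * h)).card := by rw [mul_add, Finset.mul_sum]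
        _ ≤ D.totalDegree * (p * h) ^ r + ∑ Q : S, C Q * (p * h) ^ r :=
          Nat.add_le_add hZc (Finset.sum_le_sum fun Q _ => hb Q)
        _ = (D.totalDegree + ∑ Q : S, C Q) * (p * h) ^ r := by rw [← Finset.sum_mul, add_mul]
    have h3 : 0 < (p * h) ^ r := Nat.pow_pos (Nat.mul_pos hp0 hh1)
    have h4 := Nat.le_of_mul_le_mul_right h2 h3
    omega
  obtain ⟨t, htb, htZ, htS⟩ := hex
  refine ⟨fun k => (t k : ℤ), ?_, hSt _ fun Q hQ x hx => ?_⟩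
  · intro h1
    apply htZ
    rw [hZ, Finset.mem_filter]
    exact ⟨htb, h1⟩
  · exact htS ⟨Q, hQ⟩ (mem_bad.2 ⟨mem_box.1 htb, x, hx⟩)

end

end Pool.Agent.Helper26.HI
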